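import Pool.Agent.H724.ST.Fin

/-!
# The star problem is undecidable in every trace monoid containing a C4-submonoid

The alphabet is `Fin k`, the independence relation is `I`.  Recognizable trace languages are given to an algorithm
in one of two ways: by a finite automaton over the trace monoid, or by a finite monoid `S`, a homomorphism
`h` to `S` (images of the letters) and a set `T` of elements of `S`, the language being `h⁻¹(T)`.
-/

set_option autoImplicit false

namespace Pool.Agent.Results.MP_1b5989_lc.StarProblemUndecidable

/-- The congruence on words generated by `ab = ba` for all independent letters `a`, `b`. -/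
def traceCongruence (k : ℕ) (I : Fin k → Fin k → Prop) : Con (FreeMonoid (Fin k)) :=
  conGen fun u v => ∃ a b, I a b ∧ u = FreeMonoid.of a * FreeMonoid.of b ∧
    v = FreeMonoid.of b * FreeMonoid.of a

/-- The trace monoid `M(Σ, I)`. -/
abbrev TraceMonoid (k : ℕ) (I : Fin k → Fin k → Prop) : Type := (traceCongruence k I).Quotient

/-- The trace of a word. -/
def trace (k : ℕ) (I : Fin k → Fin k → Prop) (w : List (Fin k)) : TraceMonoid k I :=
  ((FreeMonoid.ofList w : FreeMonoid (Fin k)) : (traceCongruence k I).Quotient)

/-- Recognizable subsets of a monoid: `L = h⁻¹(h(L))` for a homomorphism `h` to a finite monoid. -/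
def Recognizable {M : Type} [Monoid M] (L : Set M) : Prop :=
  ∃ (S : Type) (_ : Monoid S) (_ : Finite S) (h : M →* S), L = h ⁻¹' (h '' L)

/-- There are four letters whose independence graph is a 4-cycle. -/
def ContainsC4 {k : ℕ} (I : Fin k → Fin k → Prop) : Prop :=
  ∃ a b c d : Fin k, a ≠ c ∧ b ≠ d ∧ I a b ∧ I b c ∧ I c d ∧ I d a ∧ ¬ I a c ∧ ¬ I b d

/-! ## Presentation by finite automata -/

/-- The state reached from the state `q` by the letter `a`: entry `a` of the row `q` of the table `c.1`. -/
def next {k : ℕ} (c : List (List ℕ) × List ℕ) (q : ℕ) (a : Fin k) : ℕ := (c.1.getD q []).getD a 0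

/-- `c` describes a finite automaton over the trace monoid: states `0, ..., c.1.length - 1` (initial state `0`),
transitions by the table `c.1`, independent letters commute; the final states are listed in `c.2`. -/
def IsAutomaton {k : ℕ} (I : Fin k → Fin k → Prop) (c : List (List ℕ) × List ℕ) : Prop :=
  0 < c.1.length ∧ (∀ q < c.1.length, ∀ a : Fin k, next c q a < c.1.length) ∧
    ∀ q < c.1.length, ∀ a b : Fin k, I a b → next c (next c q a) b = next c (next c q b) a

/-- The accepted trace language. -/
def accepted {k : ℕ} (I : Fin k → Fin k → Prop) (c : List (List ℕ) × List ℕ) :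
    Set (TraceMonoid k I) :=
  {m | ∃ w : List (Fin k), trace k I w = m ∧ w.foldl (next c) 0 ∈ c.2}

/-- Some algorithm decides, given a finite automaton over the trace monoid accepting `L`, whether the
submonoid `L*` generated by `L` is recognizable. -/
def DecidableForAutomata {k : ℕ} (I : Fin k → Fin k → Prop) : Prop :=
  ∃ f : List (List ℕ) × List ℕ → Bool, Computable f ∧ ∀ c, IsAutomaton I c →
    (f c = true ↔ Recognizable (Submonoid.closure (accepted I c) : Set (TraceMonoid k I)))

/-! ## Presentation by finite monoids -/

/-- Product of two elements: entry `r` of the row `q` of the multiplication table `c.1`. -/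
def mul (c : List (List ℕ) × ℕ × List ℕ × List ℕ) (q r : ℕ) : ℕ := (c.1.getD q []).getD r 0

/-- The image of the letter `a`: entry `a` of the list `c.2.2.1`. -/
def img {k : ℕ} (c : List (List ℕ) × ℕ × List ℕ × List ℕ) (a : Fin k) : ℕ := c.2.2.1.getD a 0

/-- `c` describes a finite monoid `S = {0, ..., c.1.length - 1}` with unit `c.2.1`, and a homomorphism from the
trace monoid to `S` (the images of independent letters commute); `c.2.2.2` lists the elements of a subset. -/
def IsMonoidData {k : ℕ} (I : Fin k → Fin k → Prop) (c : List (List ℕ) × ℕ × List ℕ × List ℕ) :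
    Prop :=
  (∀ q < c.1.length, ∀ r < c.1.length, mul c q r < c.1.length) ∧
  (∀ q < c.1.length, ∀ r < c.1.length, ∀ s < c.1.length,
    mul c (mul c q r) s = mul c q (mul c r s)) ∧
  c.2.1 < c.1.length ∧
  (∀ q < c.1.length, mul c c.2.1 q = q ∧ mul c q c.2.1 = q) ∧
  (∀ a : Fin k, img c a < c.1.length) ∧
  ∀ a b : Fin k, I a b → mul c (img c a) (img c b) = mul c (img c b) (img c a)

/-- The trace language `h⁻¹(T)`. -/
def recognised {k : ℕ} (I : Fin k → Fin k → Prop) (c : List (List ℕ) × ℕ × List ℕ × List ℕ) :
    Set (TraceMonoid k I) :=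
  {m | ∃ w : List (Fin k), trace k I w = m ∧
    w.foldl (fun q a => mul c q (img c a)) c.2.1 ∈ c.2.2.2}

/-- Some algorithm decides, given a finite monoid `S`, a homomorphism `h` and a subset `T` of `S`, whether the
submonoid generated by `h⁻¹(T)` is recognizable. -/
def DecidableForMonoids {k : ℕ} (I : Fin k → Fin k → Prop) : Prop :=
  ∃ f : List (List ℕ) × ℕ × List ℕ × List ℕ → Bool, Computable f ∧ ∀ c, IsMonoidData I c →
    (f c = true ↔ Recognizable (Submonoid.closure (recognised I c) : Set (TraceMonoid k I)))

/-- **The star problem is undecidable in every trace monoid containing a C4-submonoid.** -/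
theorem result (k : ℕ) (I : Fin k → Fin k → Prop) (hsymm : ∀ a b, I a b → I b a)
    (hirr : ∀ a, ¬ I a a) (hC4 : ContainsC4 I) :
    ¬ DecidableForAutomata I ∧ ¬ DecidableForMonoids I :=
  ⟨Pool.Agent.H724.ST.aut_undecidable k I hsymm hirr hC4,
    Pool.Agent.H724.ST.mon_undecidable k I hsymm hirr hC4⟩

end Pool.Agent.Results.MP_1b5989_lc.StarProblemUndecidable
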